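import Pool.Agent.Q296.HitWin.Main

/-!
# Hitting probabilities of a window of times: no bound of order `n / t`

For every `n ≥ 17` there are a Markov chain on `n` states, two states `x, y` and an integer `t > n`
with `P_x(t ≤ τ(y) ≤ t + n) ≥ (√n / 60) (n / t)`. As `√n / 60` is unbounded, no absolute constant
`C` satisfies `P_x(t ≤ τ(y) ≤ t + n) ≤ C n / t` for all chains and all `t > n`.
-/

namespace Pool.Agent.Results.MP_eadfc1_pr.WindowProbability

open Q296.HitWin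

theorem result :
    ∀ n : ℕ, 17 ≤ n → ∃ P : Fin n → Fin n → ℝ, IsTransition P ∧
      ∃ (x y : Fin n) (t : ℕ), n < t ∧
        Real.sqrt n / 60 * ((n : ℝ) / t) ≤ windowProb P x y t (t + n) := by
  intro n hn
  obtain ⟨N, rfl⟩ : ∃ N, n = N + 1 := ⟨n - 1, by omega⟩
  have h1 : N < (Nat.sqrt N + 1) ^ 2 := Nat.lt_succ_sqrt' N
  have h2 : (Nat.sqrt N + 1 - 1) ^ 2 ≤ N := by
    rw [Nat.add_sub_cancel]; exact Nat.sqrt_le' N
  have h3 : 5 ≤ Nat.sqrt N + 1 := by
    have : 4 ≤ Nat.sqrt N := Nat.le_sqrt.2 (by omega)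
    omega
  obtain ⟨t, ht, hw⟩ := main N (Nat.sqrt N + 1) h1 h2 h3
  have hN2 : (0 : ℝ) < ((N + 2 : ℕ) : ℝ) := by positivity
  refine ⟨line N (1 / ((N + 2 : ℕ) : ℝ)), line_isTransition N (by positivity) ?_, 0, Fin.last N,
    t, ht, hw⟩
  rw [div_le_one hN2]
  have : 1 ≤ N + 2 := by omega
  exact_mod_cast this

end Pool.Agent.Results.MP_eadfc1_pr.WindowProbability
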